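import Pool.Agent.Work.MP_743dc4_lc.Final

/-!
The pooling problem with one quality and out-degrees at most two is NP-hard.

The instances (`Inst`), validity (`Inst.Valid`), the degree restriction (`Inst.OutDegLeTwo`),
feasible solutions (`Inst.Feasible`), their cost (`Inst.totalCost`) and the small instances
(`Inst.Small`) are defined in `Pool.Agent.Work.MP_743dc4_lc.Defs`. The classes NP and P and
NP-hardness are defined in `Pool.Agent.Work.PolyTime.NPDefs`, polynomial-time computability (with
Mathlib's machines `Turing.TM2ComputableInPolyTime`) and polynomial-time reducibility in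
`Pool.Agent.Work.PolyTime.ETR`.
-/

set_option autoImplicit false

namespace Pool.Agent.Results.MP_743dc4_lc.PoolingNPHard

open Pool.Agent.Work.PolyTime
open Pool.Agent.Work.MP_743dc4_lc

/-! Encoding of inputs by bit strings. -/

/-- A bit is written `0` or `100`. -/
def encBit : Bool → List Bool
  | false => [false]
  | true => [true, false, false]

/-- A list is written by writing `1` before each of its elements and `0` at the end. -/
def encList {α : Type} (e : α → List Bool) : List α → List Bool
  | [] => [false]
  | a :: l => true :: (e a ++ encList e l)

/-- A pair is written by writing `1`, the first and the second component. -/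
def encPair {α β : Type} (e : α → List Bool) (f : β → List Bool) (x : α × β) : List Bool :=
  true :: (e x.1 ++ f x.2)

/-- The number of a node is written in unary, `n` as `1010...100`. -/
def encNode : ℕ → List Bool
  | 0 => [false]
  | n + 1 => true :: false :: encNode n

/-- Rational numbers: sign, and numerator and denominator in binary. -/
def encNum : BNum → List Bool := encPair encBit (encPair (encList encBit) (encList encBit))

/-- The bit string of an arc. -/
def encArc (a : Arc) : List Bool :=
  encPair encNode (encPair encNode (encPair encNum encNum)) (a.tail, a.head, a.cost, a.cap)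

/-- The bit string of an instance and a threshold. -/
def encode (I : Inst) (t : BNum) : List Bool :=
  encPair (encPair (encList (encPair encNum encNum)) (encPair (encList encNum)
    (encPair (encList (encPair encNum encNum)) (encPair (encList encArc) (encList encArc)))))
    encNum ((I.inputs, I.pools, I.outputs, I.arcsI, I.arcsJ), t)

/-- The pooling problem with one quality and out-degrees at most two, restricted to the instances
in `S`, in its threshold version: is there a feasible solution of cost at most `t`? -/
def Pooling (S : Set Inst) : Set (List Bool) :=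
  {w | ∃ (I : Inst) (t : BNum), w = encode I t ∧ I.Valid ∧ I.OutDegLeTwo ∧ I ∈ S ∧
    litVal t.2.2 ≠ 0 ∧ ∃ (x y : ℕ → ℕ → ℝ) (p : ℕ → ℝ), I.Feasible x y p ∧
      I.totalCost x y ≤ val t}

/-! The encoding is the one used in the proof. -/

theorem encBit_eq (b : Bool) : encBit b = (code b).ser := by cases b <;> rfl

theorem encList_eq {α β : Type} [Code β] {e : α → List Bool} {g : α → β}
    (h : ∀ a, e a = (code (g a)).ser) (l : List α) : encList e l = (code (l.map g)).ser := by
  induction l with
  | nil => rfl
  | cons a l ih =>
    rw [encList, ih, h]
    rfl

theorem encList_eq' {α : Type} [Code α] {e : α → List Bool}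
    (h : ∀ a, e a = (code a).ser) (l : List α) : encList e l = (code l).ser := by
  have := encList_eq (g := fun a : α => a) h l
  simpa using this

theorem encPair_eq {α β : Type} [Code α] [Code β] {e : α → List Bool} {f : β → List Bool}
    (h : ∀ a, e a = (code a).ser) (h' : ∀ a, f a = (code a).ser) (x : α × β) :
    encPair e f x = (code x).ser := by
  rw [encPair, h, h']
  rfl

theorem encNode_eq (n : ℕ) : encNode n = (code n).ser := by
  induction n with
  | zero => rfl
  | succ n ih => rw [encNode, ih]; rfl

theorem encNum_eq (a : BNum) : encNum a = (code a).ser :=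
  encPair_eq encBit_eq (encPair_eq (encList_eq' encBit_eq) (encList_eq' encBit_eq)) a

theorem encArc_eq (a : Arc) : encArc a = (code a.toT).ser :=
  encPair_eq encNode_eq (encPair_eq encNode_eq (encPair_eq encNum_eq encNum_eq))
    (a.tail, a.head, a.cost, a.cap)

theorem encode_eq (I : Inst) (t : BNum) : encode I t = (code (I.toT, t)).ser := by
  have h1 := encList_eq' (encPair_eq encNum_eq encNum_eq)
  have h2 := encList_eq' encNum_eq
  have h3 := encList_eq encArc_eq
  simp only [encode, encPair, h1, h2, h3, encNum_eq]
  rfl

theorem Pooling_eq (S : Set Inst) : Pooling S = problem (WF S) Yes := by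
  ext w
  constructor
  · rintro ⟨I, t, hw, h1, h2, h3, h4, h5⟩
    refine ⟨(I.toT, t), by rw [hw, encode_eq], ⟨?_, ?_, ?_, h4⟩, ?_⟩
    · rw [instOf_toT]; exact h1
    · rw [instOf_toT]; exact h2
    · rw [instOf_toT]; exact h3
    · rw [Yes, instOf_toT]; exact h5
  · rintro ⟨⟨I, t⟩, hw, ⟨h1, h2, h3, h4⟩, h5⟩
    exact ⟨instOf I, t, by rw [hw, encode_eq, toT_instOf], h1, h2, h3, h4, h5⟩

theorem inP_of_reducible {L L' : Set (List Bool)} (h : PolyReducible L L') (h' : InP L') :
    InP L := by
  obtain ⟨f, hf, hf'⟩ := h
  obtain ⟨g, hg, hg'⟩ := h'
  exact ⟨fun w => g (f w), hg.comp hf, fun w => (hf' w).trans (hg' (f w))⟩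

/-- **NP-hardness of the pooling problem with one quality and out-degrees at most two**, for every
class of instances that contains the small ones; in particular for the class of all instances
(`S = Set.univ`). If such a problem is in P, then P = NP. -/
theorem result : ∀ S : Set Inst, (∀ I : Inst, I.Small → I ∈ S) →
    NPHard (Pooling S) ∧ (InP (Pooling S) → ∀ L, InNP L → InP L) := by
  intro S hS
  have h : NPHard (Pooling S) := by rw [Pooling_eq]; exact pooling_nphard S hS
  exact ⟨h, fun h' L hL => inP_of_reducible (h L hL) h'⟩

end Pool.Agent.Results.MP_743dc4_lc.PoolingNPHard
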